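import Mathlib
import Pool.Agent.Lib.MP_800721_co.Final

/-!
# The m-pire chromatic number of all closed orientable surfaces of genus at least one

For every genus `g ≥ 1` and every `m ≥ 2` the m-pire chromatic number of the closed orientable
surface of genus `g` equals Heawood's number
`⌊(6 m + 1 + √((6 m + 1) ^ 2 + 48 (g - 1))) / 2⌋`.

The definitions are in `Pool.Agent.Lib.MP_800721_co.Claim`.
-/

namespace Pool.Agent.Results.MP_800721_co.EmpireChromaticNumber

open Empire

/-- **Heawood's empire problem.**  For all `g ≥ 1` and `m ≥ 2` the least number of colours that
suffices for all m-pire maps on the closed orientable surface of genus `g` is Heawood's number. -/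
theorem result (g m : ℕ) (hg : 1 ≤ g) (hm : 2 ≤ m) :
    IsLeast {k | Suffices g m k} (heawood g m) :=
  empire hg hm

end Pool.Agent.Results.MP_800721_co.EmpireChromaticNumber
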